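import Pool.Agent.Helper81.XP.StB

set_option autoImplicit false

/-!
MP_f90738_co: CNC, counting common zeros on a curve.
-/

open Finset
open scoped Pointwise LinearAlgebra.Projectivization

namespace Pool.Agent.Helper81.XP

/-! ### auxiliary lemmas -/

/-- values of polynomials at elements of a subring -/
theorem cnc_mem {k K : Type} [Field k] [CommRing K] [Algebra k K] (A : Subring K)
    (hc : ∀ c : k, algebraMap k K c ∈ A) (P : Fin 3 → K) (hP : ∀ i, P i ∈ A)
    (H : MvPolynomial (Fin 3) k) : MvPolynomial.aeval P H ∈ A := by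
  induction H using MvPolynomial.induction_on with
  | C c => rw [MvPolynomial.aeval_C]; exact hc c
  | add p q hp hq => rw [map_add]; exact A.add_mem hp hq
  | mul_X p i hp => rw [map_mul, MvPolynomial.aeval_X]; exact A.mul_mem hp (hP i)

theorem cnc_kap {k : Type} [Field k] (σ : Om k ≃ₐ[RatFunc k] Om k) (P : Fin 3 → Om k) :
    kap (fun i => σ (P i)) = σ (kap P) := by
  unfold kap
  simp only [map_add, map_sub, map_mul, map_pow, map_one, map_ofNat]

theorem cnc_good {k : Type} [Field k] (σ : Om k ≃ₐ[RatFunc k] Om k) {P : Fin 3 → Om k}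
    (h : Good P) : Good (fun i => σ (P i)) := by
  have hn : ∀ x : Om k, x ≠ 0 → σ x ≠ 0 := fun x hx h0 => hx (by
    have := congrArg σ.symm h0
    simpa using this)
  obtain ⟨h1, h2, h3, h4, h5⟩ := h
  refine ⟨hn _ h1, ?_, ?_, ?_, ?_⟩
  · rw [cnc_kap]; exact hn _ h2
  · exact h3.imp (hn _) (hn _)
  · refine h4.imp (hn _) fun h => ?_
    have := hn _ h
    rwa [map_add, map_pow, map_one] at this
  · refine h5.imp (hn _) fun h => ?_
    have := hn _ h
    rwa [map_add, map_pow, map_one] at this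

theorem cnc_sigma {k : Type} [Field k] (σ : Om k ≃ₐ[RatFunc k] Om k) (P : Fin 3 → Om k)
    (H : MvPolynomial (Fin 3) k) :
    σ (MvPolynomial.aeval P H) = MvPolynomial.aeval (fun i => σ (P i)) H := by
  induction H using MvPolynomial.induction_on with
  | C c =>
    rw [MvPolynomial.aeval_C, MvPolynomial.aeval_C,
      IsScalarTower.algebraMap_apply k (RatFunc k) (Om k), σ.commutes]
  | add p q hp hq => rw [map_add, map_add, map_add, hp, hq]
  | mul_X p i hp =>
    rw [map_mul, map_mul, map_mul, hp, MvPolynomial.aeval_X, MvPolynomial.aeval_X]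

/-- values at infinity -/
theorem cnc_inf {k K : Type} [Field k] [Field K] [Algebra k K] (O : ValuationSubring K)
    (hc : ∀ c : k, algebraMap k K c ∈ O) (t : K) (ht : 1 ≤ O.valuation t) (P : Fin 3 → K)
    (hP : ∀ i, O.valuation (P i) ≤ O.valuation t) (H : MvPolynomial (Fin 3) k) (D : ℕ)
    (hD : H.totalDegree ≤ D) :
    O.valuation (MvPolynomial.aeval P H) ≤ O.valuation t ^ D := by
  rw [MvPolynomial.aeval_def, MvPolynomial.eval₂_eq']
  refine Valuation.map_sum_le _ fun m hm => ?_
  have h1 : ∑ i, m i ≤ D := by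
    have h := (MvPolynomial.le_totalDegree hm).trans hD
    rwa [Finsupp.sum_fintype _ _ (fun _ => rfl)] at h
  rw [map_mul, map_prod]
  have h2 : O.valuation (algebraMap k K (MvPolynomial.coeff m H)) ≤ 1 :=
    (O.valuation_le_one_iff _).2 (hc _)
  have h3 : ∏ i, O.valuation (P i ^ m i) ≤ O.valuation t ^ ∑ i, m i := by
    rw [← Finset.prod_pow_eq_pow_sum]
    refine Finset.prod_le_prod' fun i _ => ?_
    rw [map_pow]
    exact pow_le_pow_left₀ zero_le (hP i) _
  calc O.valuation (algebraMap k K (MvPolynomial.coeff m H)) * ∏ i, O.valuation (P i ^ m i)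
      ≤ 1 * O.valuation t ^ ∑ i, m i := mul_le_mul' h2 h3
    _ = O.valuation t ^ ∑ i, m i := one_mul _
    _ ≤ O.valuation t ^ D := pow_le_pow_right₀ ht h1

/-- evaluation after a linear change of coordinates -/
theorem cnc_ev3 {k : Type} [Field k] (M : Matrix (Fin 3) (Fin 3) k) (a b c : k)
    (g : MvPolynomial (Fin 3) k) :
    ev3 a b c (phi M g) = MvPolynomial.eval (mv M a b c) g := by
  have h : (ev3 a b c).comp (phi M) = MvPolynomial.eval (mv M a b c) := by
    refine MvPolynomial.ringHom_ext (fun r => ?_) fun i => ?_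
    · simp [ev3, ev2, phi]
    · simp [ev3, ev2, phi, lf, mv]
  exact RingHom.congr_fun h g

open Classical in
/-- roots of a polynomial with a constant leading coefficient -/
theorem cnc_roots {A : Type} [CommRing A] {k : Type} [Field k] (φ : A →+* k) (F : Polynomial A)
    (N : ℕ) (h1 : ∀ i, N < i → F.coeff i = 0) (h2 : φ (F.coeff N) ≠ 0) :
    F.map φ ≠ 0 ∧ (F.map φ).roots.toFinset.card ≤ N := by
  have hne : F.map φ ≠ 0 := by
    intro h
    apply h2
    rw [← Polynomial.coeff_map, h, Polynomial.coeff_zero]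
  refine ⟨hne, ?_⟩
  refine (Multiset.toFinset_card_le _).trans ((Polynomial.card_roots' _).trans ?_)
  rw [Polynomial.natDegree_le_iff_coeff_eq_zero]
  intro i hi
  rw [Polynomial.coeff_map, h1 i hi, map_zero]

theorem cnc_td2 {k : Type} [Field k] {N : ℕ} {R : T2 k} (h : Mo2 N R) (a : k) :
    (∀ i, N < i → R.coeff i = 0) ∧
    Polynomial.eval₂RingHom (algebraMap k k) a (R.coeff N) ≠ 0 := by
  obtain ⟨h1, c, hc, h2⟩ := h
  constructor
  · intro i hi
    ext j
    rw [Polynomial.coeff_zero]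
    by_contra h3
    have := h1 i j h3
    omega
  · rw [h2]
    simpa using hc

theorem cnc_td3 {k : Type} [Field k] {d : ℕ} {G : T3 k} (h : Mo3 d G) (a b : k) :
    (∀ i, d < i → G.coeff i = 0) ∧ ev2 a b (G.coeff d) ≠ 0 := by
  obtain ⟨h1, c, hc, h2⟩ := h
  constructor
  · intro i hi
    ext j l
    rw [Polynomial.coeff_zero, Polynomial.coeff_zero]
    by_contra h3
    have := h1 i j l h3
    omega
  · rw [h2]
    simpa [ev2] using hc

/-- counting the points above the zeros of `q0` -/
theorem cnc_count {k : Type} [Field k] (M : Matrix (Fin 3) (Fin 3) k)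
    (g : MvPolynomial (Fin 3) k) (R : T2 k) (d N : ℕ) (hg : Mo3 d (phi M g)) (hR : Mo2 N R)
    (q0 : Polynomial k) (hq : q0 ≠ 0) (B : ℕ) (hB : q0.natDegree ≤ B) (E : Finset (Fin 3 → k))
    (hE : ∀ e ∈ E, ∃ a b c, e = mv M a b c ∧ ev2 a b R = 0 ∧ MvPolynomial.eval e g = 0 ∧
      q0.eval a = 0) : E.card ≤ N * d * B := by
  classical
  set T : Finset (Fin 3 → k) := q0.roots.toFinset.biUnion fun a =>
    (R.map (Polynomial.eval₂RingHom (algebraMap k k) a)).roots.toFinset.biUnion fun b =>
      ((phi M g).map (ev2 a b)).roots.toFinset.image fun c => mv M a b c with hT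
  have hsub : E ⊆ T := by
    intro e he
    obtain ⟨a, b, c, h1, h2, h3, h4⟩ := hE e he
    rw [hT]
    simp only [Finset.mem_biUnion, Finset.mem_image, Multiset.mem_toFinset]
    refine ⟨a, ?_, b, ?_, c, ?_, h1.symm⟩
    · exact (Polynomial.mem_roots hq).2 h4
    · obtain ⟨k1, k2⟩ := cnc_td2 hR a
      refine (Polynomial.mem_roots (cnc_roots _ R N k1 k2).1).2 ?_
      have h5 : ev2 a b R = (R.map (Polynomial.eval₂RingHom (algebraMap k k) a)).eval b := by
        rw [Polynomial.eval_map]
        rfl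
      rw [Polynomial.IsRoot.def, ← h5]
      exact h2
    · obtain ⟨k1, k2⟩ := cnc_td3 hg a b
      refine (Polynomial.mem_roots (cnc_roots _ _ d k1 k2).1).2 ?_
      have h5 : ev3 a b c (phi M g) = ((phi M g).map (ev2 a b)).eval c := by
        rw [Polynomial.eval_map]
        rfl
      rw [Polynomial.IsRoot.def, ← h5, cnc_ev3, ← h1]
      exact h3
  refine (Finset.card_le_card hsub).trans ?_
  have h1 : T.card ≤ q0.roots.toFinset.card * (N * d) := by
    rw [hT]
    refine Finset.card_biUnion_le_card_mul _ _ _ fun a _ => ?_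
    obtain ⟨k1, k2⟩ := cnc_td2 hR a
    have h2 : ((R.map (Polynomial.eval₂RingHom (algebraMap k k) a)).roots.toFinset.biUnion fun b =>
      ((phi M g).map (ev2 a b)).roots.toFinset.image fun c => mv M a b c).card
      ≤ (R.map (Polynomial.eval₂RingHom (algebraMap k k) a)).roots.toFinset.card * d := by
      refine Finset.card_biUnion_le_card_mul _ _ _ fun b _ => ?_
      obtain ⟨k1, k2⟩ := cnc_td3 hg a b
      exact Finset.card_image_le.trans (cnc_roots _ _ d k1 k2).2
    exact h2.trans (Nat.mul_le_mul_right d (cnc_roots _ R N k1 k2).2)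
  have h2 : q0.roots.toFinset.card ≤ B :=
    (Multiset.toFinset_card_le _).trans ((Polynomial.card_roots' _).trans hB)
  refine h1.trans ?_
  rw [mul_comm]
  exact Nat.mul_le_mul_left _ h2

theorem st_CNC (hA : ST_CNA) (hB : ST_CNB) (hRED : ST_RED) (hGEN : ST_GEN) (hINT : ST_INT)
    (hSEP : ST_SEP) (hVAI : ST_VAI) (hVAP : ST_VAP) : ST_CNC := by
  classical
  intro k _ _ p _ _ M g R d N D hM hg hR hp
  obtain ⟨⟨S, hS, hSG⟩, hG⟩ := hA k M g R d N hM hg hR
  set L : Finset (Fin 3 → Om k) := S.filter fun P => Good P with hL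
  have hLG : ∀ P, P ∈ L ↔ GP M g R P ∧ Good P := by
    intro P
    rw [hL, Finset.mem_filter, hSG]
  have hLc : L.card ≤ N * d := (Finset.card_filter_le _ _).trans hS
  refine ⟨L, hLc, fun P hP => ?_, ?_⟩
  · obtain ⟨h1, h2⟩ := (hLG P).1 hP
    obtain ⟨h3, h4, -⟩ := hG P h1
    exact ⟨h2, h3, h4⟩
  intro h hh hne E hE
  obtain ⟨c, hc⟩ := hGEN k (Om k) (Fin 3 → Om k) L (fun P l => MvPolynomial.aeval P (h l)) hne
  set H : MvPolynomial (Fin 3) k := ∑ l, MvPolynomial.C (c l) * h l with hH
  have hHa : ∀ P : Fin 3 → Om k, MvPolynomial.aeval P H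
      = ∑ l, algebraMap k (Om k) (c l) * MvPolynomial.aeval P (h l) := by
    intro P
    rw [hH, map_sum]
    refine Finset.sum_congr rfl fun l _ => ?_
    rw [map_mul, MvPolynomial.aeval_C]
  have hHd : H.totalDegree ≤ D := by
    rw [hH]
    refine (MvPolynomial.totalDegree_finsetSum _ _).trans (Finset.sup_le fun l _ => ?_)
    refine (MvPolynomial.totalDegree_mul _ _).trans ?_
    rw [MvPolynomial.totalDegree_C, zero_add]
    exact hh l
  set q : Om k := ∏ P ∈ L, MvPolynomial.aeval P H with hq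
  have hq0 : q ≠ 0 := by
    rw [hq, Finset.prod_ne_zero_iff]
    intro P hP
    rw [hHa]
    exact hc P hP
  have hcA : ∀ c : k, IsIntegral (Polynomial k) (algebraMap k (Om k) c) := by
    intro c
    rw [IsScalarTower.algebraMap_apply k (Polynomial k) (Om k)]
    exact isIntegral_algebraMap
  have hint : ∀ P ∈ L, IsIntegral (Polynomial k) (MvPolynomial.aeval P H) := by
    intro P hP
    exact cnc_mem (integralClosure (Polynomial k) (Om k)).toSubring hcA P
      (hG P ((hLG P).1 hP).1).1 H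
  have hqi : IsIntegral (Polynomial k) q := by
    rw [hq]
    exact IsIntegral.prod _ hint
  have hqσ : ∀ σ : Om k ≃ₐ[RatFunc k] Om k, σ q = q := by
    intro σ
    rw [hq, map_prod]
    have hst : ∀ τ : Om k ≃ₐ[RatFunc k] Om k, ∀ P ∈ L, (fun i => τ (P i)) ∈ L := by
      intro τ P hP
      obtain ⟨h1, h2⟩ := (hLG P).1 hP
      exact (hLG _).2 ⟨(hG P h1).2.2.2.1 τ, cnc_good τ h2⟩
    refine Finset.prod_bij (fun P _ => fun i => σ (P i)) (fun P hP => hst σ P hP) ?_ ?_ ?_
    · intro P _ Q _ hPQ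
      funext i
      exact σ.injective (congrFun hPQ i)
    · intro Q hQ
      refine ⟨fun i => σ.symm (Q i), hst σ.symm Q hQ, ?_⟩
      funext i
      simp
    · intro P _
      exact cnc_sigma σ P H
  have hCP : CharP (RatFunc k) p := inferInstance
  have hsep : IsSeparable (RatFunc k) q := by
    rw [← mem_separableClosure_iff, hq]
    refine prod_mem fun P hP => ?_
    refine cnc_mem (separableClosure (RatFunc k) (Om k)).toSubring (fun c => ?_) P
      (fun i => ?_) H
    · rw [IsScalarTower.algebraMap_apply k (RatFunc k) (Om k)]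
      exact (separableClosure (RatFunc k) (Om k)).algebraMap_mem _
    · have h1 := (hG P ((hLG P).1 hP).1).2.2.1 i
      exact mem_separableClosure_iff.2 (hSEP (RatFunc k) (Om k) p Fact.out hCP (P i)
        (Algebra.IsIntegral.isIntegral _) (h1.trans_lt hp))
  obtain ⟨q0, hq1⟩ := (hINT k q hqi hqσ).2 hsep
  have hq00 : q0 ≠ 0 := by
    rintro rfl
    rw [map_zero] at hq1
    exact hq0 hq1
  -- the degree of `q0`
  have hdeg : q0.natDegree ≤ D * (N * d) := by
    obtain ⟨⟨O, hO⟩, hV⟩ := hVAI k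
    obtain ⟨-, ht, hqv⟩ := hV O hO
    have h1 : O.valuation q ≤ O.valuation (tt k) ^ (D * L.card) := by
      rw [hq, map_prod]
      have h2 : ∏ P ∈ L, O.valuation (MvPolynomial.aeval P H)
          ≤ ∏ _P ∈ L, O.valuation (tt k) ^ D := by
        refine Finset.prod_le_prod' fun P hP => ?_
        exact cnc_inf O hO.1 (tt k) ht.le P
          ((hG P ((hLG P).1 hP).1).2.2.2.2 O hO) H D hHd
      refine h2.trans (le_of_eq ?_)
      rw [Finset.prod_const, ← pow_mul]
    rw [hq1, hqv q0 hq00] at h1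
    have h3 := (pow_le_pow_iff_right₀ ht).1 h1
    exact h3.trans (Nat.mul_le_mul_left D hLc)
  refine cnc_count M g R d N hg hR q0 hq00 _ hdeg E ?_
  intro e he
  obtain ⟨hge, hhe, a, b, c', h1, h2, h3⟩ := hE e he
  refine ⟨a, b, c', h1, h2, h3, ?_⟩
  obtain ⟨⟨O, hO⟩, hV⟩ := hVAP k a
  obtain ⟨-, hiv, hroot⟩ := hV O hO
  rw [h1] at h3
  obtain ⟨P, hP, hPe⟩ := hB k M g R d N hM hg hR a b c' h2 h3 O hO
  rw [← h1] at hPe
  obtain ⟨k1, k2⟩ := hRED k (Om k) O e P hO.1 hPe
  have hPL : P ∈ L := (hLG P).2 ⟨hP, k2 hge⟩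
  have hHe : MvPolynomial.eval e H = 0 := by
    rw [hH, map_sum]
    refine Finset.sum_eq_zero fun l _ => ?_
    rw [map_mul, hhe l, mul_zero]
  have h5 := k1 H
  rw [hHe, map_zero, sub_zero] at h5
  apply hroot
  rw [← hq1, hq, map_prod]
  rw [← Finset.mul_prod_erase L _ hPL]
  have h6 : ∏ Q ∈ L.erase P, O.valuation (MvPolynomial.aeval Q H) ≤ 1 := by
    refine Finset.prod_le_one' fun Q hQ => ?_
    exact hiv _ (hint Q (Finset.mem_of_mem_erase hQ))
  calc O.valuation (MvPolynomial.aeval P H)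
        * ∏ Q ∈ L.erase P, O.valuation (MvPolynomial.aeval Q H)
      ≤ O.valuation (MvPolynomial.aeval P H) * 1 := mul_le_mul' le_rfl h6
    _ = O.valuation (MvPolynomial.aeval P H) := mul_one _
    _ < 1 := h5

end Pool.Agent.Helper81.XP
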