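import Pool.Agent.Helper81.XP.StC
import Pool.Agent.Helper81.XP.Pj

set_option autoImplicit false

/-!
XP module TRG: every element which is not of small order lies in a generating pair.
-/

open Finset
open scoped Pointwise LinearAlgebra.Projectivization

namespace Pool.Agent.Helper81.XP

theorem trg_io_inj (p : ℕ) [Fact p.Prime] : Function.Injective (io p) := by
  intro a b h
  apply Matrix.SpecialLinearGroup.ext
  intro i j
  have h1 : (io p a : Matrix (Fin 2) (Fin 2) (AlgebraicClosure (ZMod p))) i j =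
      (io p b : Matrix (Fin 2) (Fin 2) (AlgebraicClosure (ZMod p))) i j := by rw [h]
  exact (algebraMap (ZMod p) (AlgebraicClosure (ZMod p))).injective h1

theorem trg_tr_io (p : ℕ) [Fact p.Prime] (g : SL (ZMod p)) :
    tr (io p g) = algebraMap (ZMod p) (AlgebraicClosure (ZMod p)) (tr g) := by
  simp only [tr, Matrix.trace_fin_two, map_add]
  rfl

open Classical in
/-- escape for the image of a ball -/
theorem trg_esc {G H Y : Type} [Group G] [Group H] [MulAction H Y] (hESC : ST_ESC) (f : G →* H)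
    (S A : Finset G) (hA : ∀ x, x ∈ A ↔ (x ∈ S ∨ x⁻¹ ∈ S) ∨ x = 1)
    (hNI : ∀ Φ : Finset Y, Φ.Nonempty → Φ.card ≤ 3 → ∃ g ∈ A, ∃ y ∈ Φ, f g • y ∉ Φ)
    (Φ : Finset Y) (hΦ : Φ.card = 2) : ∃ h ∈ Bl S 8, ∀ y ∈ Φ, f h • y ∉ Φ := by
  have hA' : A = S ∪ S⁻¹ ∪ {1} := by
    ext x
    rw [hA]
    simp only [mem_union, Finset.mem_inv', mem_singleton]
  have h1A : (1 : G) ∈ A := (hA 1).2 (Or.inr rfl)
  have hinvA : A⁻¹ = A := by
    ext x
    rw [Finset.mem_inv', hA, hA]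
    simp only [inv_inv, inv_eq_one]
    tauto
  obtain ⟨g', hg', hesc⟩ := hESC H Y (A.image f) (mem_image.2 ⟨1, h1A, map_one _⟩)
    (by rw [← Finset.image_inv, hinvA]) (fun Ψ h1 h2 => by
      obtain ⟨g, hg, y, hy, hn⟩ := hNI Ψ h1 h2
      exact ⟨f g, mem_image_of_mem f hg, y, hy, hn⟩) Φ hΦ
  rw [← Finset.image_pow] at hg'
  obtain ⟨h, hh, rfl⟩ := mem_image.1 hg'
  refine ⟨h, ?_, hesc⟩
  rw [Bl, ← hA']
  exact hh

open Classical in
theorem st_TRG (hGN : ST_GN2) (hESC : ST_ESC) (hNIV : ST_NIV) (hFIX : ST_FIX) : ST_TRG := by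
  intro p hp h5 S hS g hg
  have hg1 : g ≠ 1 := by
    rintro rfl
    apply hg.1
    simp [tr]
  have hgm : g ≠ -1 := by
    rintro rfl
    apply hg.2.1
    simp [tr]
  have hi1 : io p g ≠ 1 := fun h => hg1 (trg_io_inj p (by rw [h, map_one]))
  have him : io p g ≠ -1 := by
    intro h
    apply hgm
    apply trg_io_inj p
    rw [h]
    apply Matrix.SpecialLinearGroup.ext
    intro i j
    fin_cases i <;> fin_cases j <;> simp [io]
  have htr : tr (io p g) ^ 2 ≠ 4 := by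
    rw [trg_tr_io]
    intro h
    have h1 : algebraMap (ZMod p) (AlgebraicClosure (ZMod p)) (tr g ^ 2) =
        algebraMap (ZMod p) (AlgebraicClosure (ZMod p)) 4 := by
      rw [map_pow, h]
      exact (map_ofNat (algebraMap (ZMod p) (AlgebraicClosure (ZMod p))) 4).symm
    have h2 : tr g ^ 2 = 4 := (algebraMap (ZMod p) (AlgebraicClosure (ZMod p))).injective h1
    have h3 : (tr g - 2) * (tr g + 2) = 0 := by linear_combination h2
    rcases mul_eq_zero.1 h3 with h4 | h4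
    · exact hg.1 (sub_eq_zero.1 h4)
    · exact hg.2.1 (eq_neg_of_add_eq_zero_left h4)
  obtain ⟨ξ1, ξ2, hfix, hne⟩ := hFIX (AlgebraicClosure (ZMod p)) (io p g) hi1 him
  have h12 : ξ1 ≠ ξ2 := fun h => htr (hne.1 h)
  set A : Finset (SL (ZMod p)) := S ∪ S⁻¹ ∪ {1} with hA
  have hAm : ∀ x, x ∈ A ↔ (x ∈ S ∨ x⁻¹ ∈ S) ∨ x = 1 := by
    intro x
    rw [hA]
    simp only [mem_union, Finset.mem_inv', mem_singleton]
  have hAtop : Subgroup.closure (A : Set (SL (ZMod p))) = ⊤ := by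
    rw [eq_top_iff, ← hS]
    apply Subgroup.closure_mono
    intro x hx
    exact (hAm x).2 (Or.inl (Or.inl hx))
  obtain ⟨h, hh, hesc⟩ := trg_esc hESC (io p) S A hAm (fun Φ h1 h2 => by
      obtain ⟨g', hg', y, hy, hn⟩ := hNIV p h5 A hAtop Φ h1 h2
      obtain ⟨g, hg, rfl⟩ := mem_image.1 hg'
      exact ⟨g, hg, y, hy, hn⟩)
    ({ξ1, ξ2} : Finset (Pt (AlgebraicClosure (ZMod p)))) (Finset.card_pair h12)
  refine ⟨h, hh, hGN p h5 g h hg ?_⟩
  intro ξ hξ h3
  have h4 : ξ ∈ ({ξ1, ξ2} : Finset (Pt (AlgebraicClosure (ZMod p)))) := by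
    rw [mem_insert, mem_singleton]
    exact (hfix ξ).1 hξ
  apply hesc ξ h4
  rw [mem_insert, mem_singleton]
  exact (hfix _).1 h3

end Pool.Agent.Helper81.XP
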